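import Mathlib
import Pool.Agent.TH278.DX.Defs2

/-! Finitely supported functions are coefficients of the regular representation (job 4954,
helper475 for helper278) -/

set_option autoImplicit false

namespace Pool.Agent.TH475.J4954

open Pool.Agent.TH278.DX

/-- The Hilbert space `ℓ²(G)`. -/
abbrev Ell (G : Type) : Type := lp (fun _ : G => ℂ) 2

/-- The operator `f ↦ f ∘ e` on `ℓ²(G)` given by a bijection `e` of `G`. -/
noncomputable def permOp {G : Type} (e : G ≃ G) : Ell G →L[ℂ] Ell G :=
  LinearIsometry.toContinuousLinearMap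
    { toFun := fun f => ⟨fun h => f (e h), by
        have h1 := (lp.memℓp f).summable (by norm_num)
        refine memℓp_gen ?_
        exact (e.summable_iff (f := fun h => ‖f h‖ ^ (2 : ENNReal).toReal)).2 h1⟩
      map_add' := fun f g => by ext h; rfl
      map_smul' := fun c f => by ext h; rfl
      norm_map' := fun f => by
        have h1 : (0 : ℝ) < (2 : ENNReal).toReal := by norm_num
        rw [lp.norm_eq_tsum_rpow h1, lp.norm_eq_tsum_rpow h1]
        congr 1
        exact e.tsum_eq (fun h => ‖f h‖ ^ (2 : ENNReal).toReal) }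

lemma norm_permOp {G : Type} (e : G ≃ G) (x : Ell G) : ‖permOp e x‖ = ‖x‖ := by
  unfold permOp
  rw [LinearIsometry.coe_toContinuousLinearMap]
  exact LinearIsometry.norm_map _ x

section

variable {G : Type} [Group G]

/-- the left regular representation: `(λ_g f)(h) = f(g⁻¹ h)` -/
noncomputable def lam (g : G) : Ell G →L[ℂ] Ell G := permOp (Equiv.mulLeft g⁻¹)

lemma lam_apply (g h : G) (x : Ell G) : lam g x h = x (g⁻¹ * h) := rfl

/-- the left regular representation as a homomorphism -/
noncomputable def lamHom : G →* (Ell G →L[ℂ] Ell G) where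
  toFun := lam
  map_one' := by
    ext x h
    rw [lam_apply, inv_one, one_mul]
    rfl
  map_mul' g k := by
    ext x h
    have e : (lam g * lam k) x = lam g (lam k x) := rfl
    rw [e, lam_apply, lam_apply, lam_apply, mul_inv_rev, mul_assoc]

lemma star_lam (g : G) : star (lam g) = lam g⁻¹ := by
  have h1 : star (lam g) * lam g = 1 :=
    (ContinuousLinearMap.norm_map_iff_adjoint_comp_self (lam g)).1 (norm_permOp _)
  have h2 : lam g * lam g⁻¹ = 1 := by
    have := (lamHom (G := G)).map_mul g g⁻¹
    rw [mul_inv_cancel, map_one] at this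
    exact this.symm
  calc star (lam g) = star (lam g) * (lam g * lam g⁻¹) := by rw [h2, mul_one]
    _ = lam g⁻¹ := by rw [← mul_assoc, h1, one_mul]

lemma lam_mem (g : G) : lam g ∈ unitary (Ell G →L[ℂ] Ell G) := by
  have h1 : lam g⁻¹ * lam g = 1 := by
    have := (lamHom (G := G)).map_mul g⁻¹ g
    rw [inv_mul_cancel, map_one] at this
    exact this.symm
  have h2 : lam g * lam g⁻¹ = 1 := by
    have := (lamHom (G := G)).map_mul g g⁻¹
    rw [mul_inv_cancel, map_one] at this
    exact this.symm
  rw [Unitary.mem_iff, star_lam]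
  exact ⟨h1, h2⟩

open Classical in
lemma lam_single (g : G) : lam g (lp.single 2 (1 : G) (1 : ℂ)) = lp.single 2 g (1 : ℂ) := by
  ext h
  rw [lam_apply, lp.single_apply, lp.single_apply, Pi.single_apply, Pi.single_apply]
  have : g⁻¹ * h = 1 ↔ h = g := by
    rw [inv_mul_eq_one, eq_comm]
  simp only [this]

end

theorem bn_fin {G : Type} [Group G] (f : G → ℝ) (E : Finset G) (hE : ∀ g, g ∉ E → f g = 0) :
    ∃ b : ℝ, Bn (fun g => ((f g : ℝ) : ℂ)) b := by
  classical
  set η : Ell G := ∑ g ∈ E, lp.single 2 g ((f g : ℝ) : ℂ) with hη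
  have hηg : ∀ g, η g = ((f g : ℝ) : ℂ) := by
    intro g
    rw [hη, lp.coeFn_sum, Finset.sum_apply]
    simp only [lp.single_apply, Pi.single_apply]
    rw [Finset.sum_ite_eq]
    split_ifs with h
    · rfl
    · rw [hE g h, Complex.ofReal_zero]
  refine ⟨‖(lp.single 2 (1 : G) (1 : ℂ) : Ell G)‖ * ‖η‖, Ell G, inferInstance, inferInstance,
    inferInstance, (lamHom (G := G)).toHomUnits, lp.single 2 (1 : G) (1 : ℂ), η, fun g => ?_,
    fun g => ?_, le_rfl⟩
  · exact lam_mem g
  · show ((f g : ℝ) : ℂ) = inner ℂ η (lam g (lp.single 2 (1 : G) (1 : ℂ)))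
    rw [lam_single, lp.inner_single_right, hηg]
    simp

end Pool.Agent.TH475.J4954
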