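import Mathlib
import Pool.Agent.TH881.RK.DefsGL
import Pool.Agent.TH881.RK.AdmD
import Pool.Agent.TH111.J4394

/-! RL-4: duality between the lost and the hit vectors, Goldbach form (job 4455, helper475 for
helper881; adapted from helper111's J4394) -/

set_option autoImplicit false

namespace Pool.Agent.TH475.J4455

open Finset Filter Topology
open Pool.Agent.TH881
open Pool.Agent.TH881.RG
open Pool.Agent.TH881.RQ
open Pool.Agent.TH881.RK
open Pool.Agent.H373R2.T7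
open Pool.Agent.TH111.J3812 (cS mem_cS cntk_eq cS1 mem_cS1 cnt_eq1)

/-! ### large primes are no obstruction -/

lemma avoid {m p : ℕ} (hp : p.Prime) (hpm : m + 1 < p) (c : Fin m → ZMod p) :
    ∃ a : ℕ, ¬ p ∣ a ∧ ∀ j, (a : ZMod p) ≠ c j := by
  classical
  haveI : Fact p.Prime := ⟨hp⟩
  have h1 : (insert (0 : ZMod p) (univ.image c)).card < (univ : Finset (ZMod p)).card := by
    rw [card_univ, ZMod.card]
    have h2 := (card_image_le (s := univ) (f := c))
    rw [card_univ, Fintype.card_fin] at h2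
    have h3 := card_insert_le (0 : ZMod p) (univ.image c)
    omega
  obtain ⟨b, -, hb⟩ := exists_mem_notMem_of_card_lt_card h1
  refine ⟨b.val, ?_, ?_⟩
  · intro hd
    apply hb
    rw [← ZMod.natCast_eq_zero_iff, ZMod.natCast_zmod_val] at hd
    rw [hd]
    exact mem_insert_self _ _
  · intro j hj
    rw [ZMod.natCast_zmod_val] at hj
    apply hb
    rw [hj]
    exact mem_insert_of_mem (mem_image_of_mem _ (mem_univ _))

lemma dvd_sub_iff (p h a : ℕ) : (p : ℤ) ∣ (h : ℤ) - a ↔ (a : ZMod p) = (h : ZMod p) := by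
  rw [← ZMod.intCast_zmod_eq_zero_iff_dvd]
  push_cast
  rw [sub_eq_zero]
  exact eq_comm

lemma dvd_add_iff' (p k a : ℕ) : p ∣ a + k ↔ (a : ZMod p) = -(k : ZMod p) := by
  rw [← ZMod.natCast_eq_zero_iff]
  push_cast
  rw [eq_neg_iff_add_eq_zero]

/-- the negated vector -/
lemma admG_iff_adm (pr : Bool) (m : ℕ) (h k : Fin m → ℕ) (hk : ∀ j, Wp (m + 1) ∣ h j + k j) :
    AdmG pr h ↔ Admk pr k := by
  have hdvd : ∀ p : ℕ, p.Prime → p ≤ m + 1 → ∀ j, (h j : ZMod p) = -(k j : ZMod p) := by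
    intro p hp hpm j
    have h1 : p ∣ Wp (m + 1) := (prime_dvd_Wp hp).2 hpm
    exact (dvd_add_iff' p (k j) (h j)).1 (h1.trans (hk j))
  constructor
  · intro hA p hp
    by_cases hpm : p ≤ m + 1
    · obtain ⟨a, ha, hb⟩ := hA p hp
      refine ⟨a, ha, fun j hj => hb j ?_⟩
      rw [dvd_sub_iff, hdvd p hp hpm j]
      exact (dvd_add_iff' p (k j) a).1 hj
    · obtain ⟨a, ha, hb⟩ := avoid hp (not_le.1 hpm) (fun j => -(k j : ZMod p))
      exact ⟨a, fun _ => ha, fun j hj => hb j ((dvd_add_iff' p (k j) a).1 hj)⟩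
  · intro hA p hp
    by_cases hpm : p ≤ m + 1
    · obtain ⟨a, ha, hb⟩ := hA p hp
      refine ⟨a, ha, fun j hj => hb j ?_⟩
      rw [dvd_sub_iff, hdvd p hp hpm j] at hj
      exact (dvd_add_iff' p (k j) a).2 hj
    · obtain ⟨a, ha, hb⟩ := avoid hp (not_le.1 hpm) (fun j => (h j : ZMod p))
      exact ⟨a, fun _ => ha, fun j hj => hb j ((dvd_sub_iff p (h j) a).1 hj)⟩

open Classical in
/-- the classes without obstruction, Goldbach form -/
noncomputable def NN (pr : Bool) (m : ℕ) : Finset (Fin m → ZMod (Wp (m + 1))) :=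
  (okk pr m (m + 1)).image (fun t => -t)

lemma card_NN (pr : Bool) (m : ℕ) : (NN pr m).card = (okk pr m (m + 1)).card := by
  classical
  unfold NN
  exact card_image_of_injective _ neg_injective

lemma admG_iff (pr : Bool) (m : ℕ) (h : Fin m → ℕ) :
    AdmG pr h ↔ (fun j => (h j : ZMod (Wp (m + 1)))) ∈ NN pr m := by
  classical
  set k : Fin m → ℕ := fun j => (-(h j : ZMod (Wp (m + 1)))).val with hkd
  have hk1 : ∀ j, (k j : ZMod (Wp (m + 1))) = -(h j : ZMod (Wp (m + 1))) := fun j => by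
    rw [hkd]
    exact ZMod.natCast_zmod_val _
  have hk : ∀ j, Wp (m + 1) ∣ h j + k j := fun j => by
    rw [← ZMod.natCast_eq_zero_iff]
    push_cast
    rw [hk1]
    ring
  rw [admG_iff_adm pr m h k hk, Pool.Agent.TH881.RK.adm_iff pr (le_refl (m + 1)) k]
  have e : (fun j => (k j : ZMod (Wp (m + 1)))) = -(fun j => (h j : ZMod (Wp (m + 1)))) := by
    funext j
    rw [hk1]
    rfl
  rw [e]
  unfold NN
  rw [mem_image]
  constructor
  · intro h1
    exact ⟨_, h1, neg_neg _⟩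
  · rintro ⟨t, ht, hte⟩
    rw [← hte, neg_neg]
    exact ht

lemma admG_dens (pr : Bool) (m : ℕ) :
    Tendsto (fun x : ℕ => (cntk {h : Fin m → ℕ | Admk pr h} x : ℝ) / (x : ℝ) ^ m) atTop
      (𝓝 (((okk pr m (m + 1)).card : ℝ) / (Wp (m + 1) : ℝ) ^ m)) :=
  dens_classes (m + 1) (okk pr m (m + 1)) {h : Fin m → ℕ | Admk pr h}
    (fun h => Pool.Agent.TH881.RK.adm_iff pr (le_refl (m + 1)) h)

lemma admG_dens' (pr : Bool) (m : ℕ) :
    Tendsto (fun x : ℕ => (cntk {h : Fin m → ℕ | AdmG pr h} x : ℝ) / (x : ℝ) ^ m) atTop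
      (𝓝 (((okk pr m (m + 1)).card : ℝ) / (Wp (m + 1) : ℝ) ^ m)) := by
  rw [← card_NN]
  exact dens_classes (m + 1) (NN pr m) {h : Fin m → ℕ | AdmG pr h} (fun h => admG_iff pr m h)

/-! ### hit vectors with an obstruction -/

/-- the exceptional set of entries -/
def ZG (m : ℕ) : Set ℕ := {k | k ≤ (m + 2) ^ 2}

lemma ZG_ratio (m : ℕ) : Tendsto (fun x : ℕ => ((cS1 (ZG m) x).card : ℝ) / x) atTop (𝓝 0) := by
  have h1 : Tendsto (fun x : ℕ => (((m + 2) ^ 2 : ℕ) : ℝ) / (x : ℝ)) atTop (𝓝 0) :=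
    tendsto_const_div_atTop_nhds_zero_nat _
  apply squeeze_zero' _ _ h1
  · exact Eventually.of_forall fun y => by positivity
  · refine Eventually.of_forall fun x => div_le_div_of_nonneg_right ?_ (by positivity)
    have h2 : (cS1 (ZG m) x).card ≤ (m + 2) ^ 2 := by
      calc (cS1 (ZG m) x).card ≤ (Icc 1 ((m + 2) ^ 2)).card := by
            apply card_le_card
            intro k hk
            rw [mem_cS1] at hk
            rw [mem_Icc]
            exact ⟨hk.1.1, hk.2⟩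
        _ = _ := by rw [Nat.card_Icc, Nat.add_sub_cancel]
    exact_mod_cast h2

lemma thinG {m : ℕ} : Tendsto (fun x : ℕ => (cntk {h : Fin m → ℕ | ∃ j, h j ∈ ZG m} x : ℝ) / (x : ℝ) ^ m)
    atTop (𝓝 0) := by
  have h1 : Tendsto (fun x : ℕ => (m : ℝ) * (((cS1 (ZG m) x).card : ℝ) / x)) atTop (𝓝 (m * 0)) :=
    (ZG_ratio m).const_mul _
  rw [mul_zero] at h1
  apply squeeze_zero' _ _ h1
  · exact Eventually.of_forall fun y => by positivity
  · filter_upwards [eventually_ge_atTop 1] with x hx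
    have h2 := Pool.Agent.TH111.J4394.cntk_bUnion (fun j : Fin m => {h : Fin m → ℕ | h j ∈ ZG m}) x
    have h3 : (cntk {h : Fin m → ℕ | ∃ j, h j ∈ ZG m} x : ℝ) / (x : ℝ) ^ m ≤
        ∑ j : Fin m, (cntk {h : Fin m → ℕ | h j ∈ ZG m} x : ℝ) / (x : ℝ) ^ m := by
      rw [← sum_div]
      exact div_le_div_of_nonneg_right h2 (by positivity)
    refine h3.trans ((sum_le_sum fun j _ => Pool.Agent.TH111.J4394.coord j (ZG m) x hx).trans (le_of_eq ?_))
    rw [sum_const, card_univ, Fintype.card_fin, nsmul_eq_mul]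

lemma hit_not_admG (pr : Bool) (m : ℕ) (hm : 1 ≤ m) (A : Set ℕ) (h : Fin m → ℕ)
    (hh : h ∈ hitG pr m A) (hA : ¬ AdmG pr h) : ∃ j, h j ∈ ZG m := by
  classical
  by_contra hcon
  push Not at hcon
  apply hA
  obtain ⟨n, -, hn, hp⟩ := hh
  have hlarge : ∀ j, (m + 2) ^ 2 < h j := fun j => not_le.1 (hcon j)
  intro p hpp
  by_cases hpm : p ≤ m + 1
  · refine ⟨n, fun hpr hd => ?_, fun j hd => ?_⟩
    · have h1 : p = n := (Nat.prime_dvd_prime_iff_eq hpp (hn hpr)).1 hd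
      have h2 := (hp ⟨0, hm⟩).1
      have h3 := hlarge ⟨0, hm⟩
      rw [← h1] at h2
      have h4 : p ^ 2 ≤ (m + 2) ^ 2 := Nat.pow_le_pow_left (by omega) 2
      omega
    · obtain ⟨h1, h2, h3⟩ := hp j
      have h4 : ((h j : ℤ) - n) = ((h j - n : ℕ) : ℤ) := by
        rw [Nat.cast_sub (by omega)]
      rw [h4, Int.natCast_dvd_natCast] at hd
      have h5 : p = h j - n := (Nat.prime_dvd_prime_iff_eq hpp h3).1 hd
      have h6 := hlarge j
      have h7 : 2 * (m + 1) ≤ (m + 2) ^ 2 := by nlinarith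
      omega
  · obtain ⟨a, ha, hb⟩ := avoid hpp (not_le.1 hpm) (fun j => (h j : ZMod p))
    exact ⟨a, fun _ => ha, fun j hj => hb j ((dvd_sub_iff p (h j) a).1 hj)⟩

/-! ### the duality -/

lemma count_eqG (pr : Bool) (m : ℕ) (A : Set ℕ) (x : ℕ) :
    cntk (losG pr m A) x + cntk (hitG pr m A) x = cntk {h : Fin m → ℕ | AdmG pr h} x +
      cntk {h : Fin m → ℕ | h ∈ hitG pr m A ∧ ¬ AdmG pr h} x := by
  have h1 := Pool.Agent.TH111.J4394.cntk_disj (S := losG pr m A)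
    (T := {h : Fin m → ℕ | AdmG pr h ∧ h ∈ hitG pr m A})
    (U := {h : Fin m → ℕ | AdmG pr h}) (fun h => by
      constructor
      · intro ha
        have ha' : AdmG pr h := ha
        by_cases hb : h ∈ hitG pr m A
        · exact Or.inr ⟨ha', hb⟩
        · exact Or.inl ⟨ha', hb⟩
      · rintro (h1 | h1)
        · exact h1.1
        · exact h1.1) (fun h h1 h2 => h1.2 h2.2) x
  have h2 := Pool.Agent.TH111.J4394.cntk_disj (S := {h : Fin m → ℕ | AdmG pr h ∧ h ∈ hitG pr m A})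
    (T := {h : Fin m → ℕ | h ∈ hitG pr m A ∧ ¬ AdmG pr h})
    (U := hitG pr m A) (fun h => by
      constructor
      · intro hb
        by_cases ha : AdmG pr h
        · exact Or.inl ⟨ha, hb⟩
        · exact Or.inr ⟨hb, ha⟩
      · rintro (h1 | h1)
        · exact h1.2
        · exact h1.1) (fun h h1 h2 => h2.2 h1.1) x
  omega

lemma dual_oneG (pr : Bool) (m : ℕ) (hm : 1 ≤ m) (A : Set ℕ) :
    udk (losG pr m A) = ((okk pr m (m + 1)).card : ℝ) / (Wp (m + 1) : ℝ) ^ m - ldk (hitG pr m A) := by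
  have herr : Tendsto (fun x : ℕ => (cntk {h : Fin m → ℕ | h ∈ hitG pr m A ∧ ¬ AdmG pr h} x : ℝ) /
      (x : ℝ) ^ m) atTop (𝓝 0) := by
    apply squeeze_zero' _ _ (thinG (m := m))
    · exact Eventually.of_forall fun y => by positivity
    · refine Eventually.of_forall fun x => div_le_div_of_nonneg_right ?_ (by positivity)
      have := Pool.Agent.TH111.J3812.cntk_mono
        (S := {h : Fin m → ℕ | h ∈ hitG pr m A ∧ ¬ AdmG pr h}) (T := {h : Fin m → ℕ | ∃ j, h j ∈ ZG m})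
        (fun h hh => hit_not_admG pr m hm A h hh.1 hh.2) x
      exact_mod_cast this
  have h1 := (admG_dens' pr m).add herr
  rw [add_zero] at h1
  unfold udk ldk
  rw [← Pool.Agent.TH111.J4394.limsup_sub h1
    (fun x => Pool.Agent.TH663.J3811.ratio_nonneg (hitG pr m A) x)
    (fun x => Pool.Agent.TH663.J3811.ratio_le (hitG pr m A) x)]
  congr 1
  funext x
  have h2 := count_eqG pr m A x
  have h3 : (cntk (losG pr m A) x : ℝ) = cntk {h : Fin m → ℕ | AdmG pr h} x +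
      cntk {h : Fin m → ℕ | h ∈ hitG pr m A ∧ ¬ AdmG pr h} x - cntk (hitG pr m A) x := by
    have h4 : (cntk (losG pr m A) x : ℝ) + cntk (hitG pr m A) x = cntk {h : Fin m → ℕ | AdmG pr h} x +
      cntk {h : Fin m → ℕ | h ∈ hitG pr m A ∧ ¬ AdmG pr h} x := by exact_mod_cast h2
    linarith
  rw [h3]
  ring

/-- **duality**, Goldbach form -/
theorem dual_G (pr : Bool) (m : ℕ) (hm : 1 ≤ m) :
    (Tendsto (fun x : ℕ => (cntk {h : Fin m → ℕ | AdmG pr h} x : ℝ) / (x : ℝ) ^ m) atTop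
      (𝓝 (ldk {h : Fin m → ℕ | Admk pr h}))) ∧
    ∀ δ : ℝ, 0 ≤ δ → MDG pr m δ = ldk {h : Fin m → ℕ | Admk pr h} - FFG pr m (1 - δ) := by
  have hd : ldk {h : Fin m → ℕ | Admk pr h} = ((okk pr m (m + 1)).card : ℝ) / (Wp (m + 1) : ℝ) ^ m := by
    unfold ldk
    exact (admG_dens pr m).liminf_eq
  refine ⟨by rw [hd]; exact admG_dens' pr m, fun δ hδ => ?_⟩
  have hu : 1 - δ ≤ relq pr Set.univ := by
    rw [Pool.Agent.TH111.J3812.relq_univ]
    linarith
  have hbb : BddBelow {d | ∃ A : Set ℕ, 1 - δ ≤ relq pr A ∧ d = ldk (hitG pr m A)} := by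
    refine ⟨0, ?_⟩
    rintro d ⟨A, -, rfl⟩
    unfold ldk
    apply le_liminf_of_le (Pool.Agent.TH663.J3811.bdd_above (hitG pr m A)).isCoboundedUnder_flip
    exact Eventually.of_forall fun x => Pool.Agent.TH663.J3811.ratio_nonneg (hitG pr m A) x
  have hba : BddAbove {d | ∃ A : Set ℕ, 1 - δ ≤ relq pr A ∧ d = udk (losG pr m A)} := by
    refine ⟨1, ?_⟩
    rintro d ⟨A, -, rfl⟩
    exact Pool.Agent.TH111.J3812.udk_le_one _
  have hn1 : Set.Nonempty {d | ∃ A : Set ℕ, 1 - δ ≤ relq pr A ∧ d = udk (losG pr m A)} :=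
    ⟨udk (losG pr m Set.univ), Set.univ, hu, rfl⟩
  have hn2 : Set.Nonempty {d | ∃ A : Set ℕ, 1 - δ ≤ relq pr A ∧ d = ldk (hitG pr m A)} :=
    ⟨ldk (hitG pr m Set.univ), Set.univ, hu, rfl⟩
  rw [hd]
  unfold MDG FFG
  apply le_antisymm
  · apply csSup_le hn1
    rintro d ⟨A, hA, rfl⟩
    rw [dual_oneG pr m hm A]
    have : sInf {d | ∃ A : Set ℕ, 1 - δ ≤ relq pr A ∧ d = ldk (hitG pr m A)} ≤ ldk (hitG pr m A) :=
      csInf_le hbb ⟨A, hA, rfl⟩
    linarith
  · have h1 : ((okk pr m (m + 1)).card : ℝ) / (Wp (m + 1) : ℝ) ^ m -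
        sSup {d | ∃ A : Set ℕ, 1 - δ ≤ relq pr A ∧ d = udk (losG pr m A)} ≤
        sInf {d | ∃ A : Set ℕ, 1 - δ ≤ relq pr A ∧ d = ldk (hitG pr m A)} := by
      apply le_csInf hn2
      rintro d ⟨A, hA, rfl⟩
      have : udk (losG pr m A) ≤ sSup {d | ∃ A : Set ℕ, 1 - δ ≤ relq pr A ∧ d = udk (losG pr m A)} :=
        le_csSup hba ⟨A, hA, rfl⟩
      rw [dual_oneG pr m hm A] at this
      linarith
    linarith

end Pool.Agent.TH475.J4455
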