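import Pool.Agent.TH158.FM.Stm2

/-! FM-RANGE (job 4850, helper475 for helper158) -/

set_option autoImplicit false

namespace Pool.Agent.TH475.J4850

open Pool.Agent.TH158.FM

/-- lower bounds for logarithms -/
lemma logLB (a : ℕ) (T0 T : ℝ) (hT0 : 0 < T0) (h : (2.7182818286 : ℝ) ^ a ≤ T0 ^ 10) (hT : T0 ≤ T) :
    (a : ℝ) / 10 ≤ Real.log T := by
  have h1 : Real.exp a ≤ T0 ^ 10 := by
    have e : Real.exp (a : ℝ) = Real.exp 1 ^ a := by
      rw [← Real.exp_nat_mul, mul_one]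
    rw [e]
    exact (pow_le_pow_left₀ (Real.exp_pos 1).le Real.exp_one_lt_d9.le a).trans h
  have h2 : (a : ℝ) ≤ Real.log (T0 ^ 10) := by
    rw [← Real.log_exp (a : ℝ)]
    exact Real.log_le_log (Real.exp_pos _) h1
  rw [Real.log_pow] at h2
  push_cast at h2
  have h3 : Real.log T0 ≤ Real.log T := Real.log_le_log hT0 hT
  linarith

/-- upper bounds for the left side -/
lemma fub (T T1 a : ℝ) (hT : 0 ≤ T) (h : T ≤ T1) (ha : 0 ≤ a) (h4 : T1 ≤ 6.283 * a ^ 4) :
    4 * (T / (2 * Real.pi)) ^ (1 / 4 : ℝ) + 1 ≤ 4 * a + 1 := by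
  have hpi := Real.pi_gt_d4
  have hp : 0 < 2 * Real.pi := by positivity
  have h1 : T / (2 * Real.pi) ≤ a ^ 4 := by
    rw [div_le_iff₀ hp]
    have h2 : 0 ≤ a ^ 4 := by positivity
    nlinarith
  have h2 : (T / (2 * Real.pi)) ^ (1 / 4 : ℝ) ≤ (a ^ 4) ^ (1 / 4 : ℝ) :=
    Real.rpow_le_rpow (by positivity) h1 (by norm_num)
  have h3 : (a ^ 4) ^ (1 / 4 : ℝ) = a := by
    have h3 := Real.pow_rpow_inv_natCast ha (n := 4) (by norm_num)
    rwa [show ((4 : ℕ) : ℝ)⁻¹ = (1 / 4 : ℝ) by norm_num] at h3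
  rw [h3] at h2
  linarith

lemma step2 (T T0 T1 a : ℝ) (l : ℕ) (h0 : 0 < T0) (hl : (2.7182818286 : ℝ) ^ l ≤ T0 ^ 10) (hT0 : T0 ≤ T)
    (hT1 : T ≤ T1) (ha : 0 ≤ a) (h4 : T1 ≤ 6.283 * a ^ 4) (hal : 4 * a + 1 ≤ ((l : ℝ) / 10) ^ 2) :
    4 * (T / (2 * Real.pi)) ^ (1 / 4 : ℝ) + 1 ≤ Real.log T ^ 2 := by
  have h1 := logLB l T0 T h0 hl hT0
  have h2 := fub T T1 a (h0.le.trans hT0) hT1 ha h4
  have h3 : ((l : ℝ) / 10) ^ 2 ≤ Real.log T ^ 2 := pow_le_pow_left₀ (by positivity) h1 2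
  linarith

lemma step3 (T T0 T1 a s : ℝ) (l : ℕ) (h0 : 0 < T0) (hl : (2.7182818286 : ℝ) ^ l ≤ T0 ^ 10) (hT0 : T0 ≤ T)
    (hT1 : T ≤ T1) (ha : 0 ≤ a) (h4 : T1 ≤ 6.283 * a ^ 4) (hs : 0 ≤ s) (hsl : s ^ 2 ≤ (l : ℝ) / 10)
    (hal : 4 * a + 1 ≤ ((l : ℝ) / 10) ^ 2 * s) :
    4 * (T / (2 * Real.pi)) ^ (1 / 4 : ℝ) + 1 ≤ Real.log T ^ (5 / 2 : ℝ) := by
  have h1 := logLB l T0 T h0 hl hT0
  have h2 := fub T T1 a (h0.le.trans hT0) hT1 ha h4
  have hl0 : (0 : ℝ) ≤ (l : ℝ) / 10 := by positivity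
  have hx : 0 ≤ Real.log T := hl0.trans h1
  have h3 : ((l : ℝ) / 10) ^ 2 ≤ Real.log T ^ 2 := pow_le_pow_left₀ hl0 h1 2
  have h5 : s ≤ Real.sqrt (Real.log T) := Real.le_sqrt_of_sq_le (hsl.trans h1)
  have h6 : Real.log T ^ (5 / 2 : ℝ) = Real.log T ^ 2 * Real.sqrt (Real.log T) := by
    rw [Real.sqrt_eq_rpow, ← Real.rpow_natCast (Real.log T) 2,
      ← Real.rpow_add_of_nonneg hx (by norm_num) (by norm_num)]
    norm_num
  rw [h6]
  have h7 : ((l : ℝ) / 10) ^ 2 * s ≤ Real.log T ^ 2 * Real.sqrt (Real.log T) :=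
    mul_le_mul h3 h5 hs (by positivity)
  linarith

lemma range1 (T : ℝ) (h1 : 1000 ≤ T) (h2 : T ≤ 5 * 10 ^ 8) :
    4 * (T / (2 * Real.pi)) ^ (1 / 4 : ℝ) + 1 ≤ Real.log T ^ 2 := by
  rcases le_total T 110000 with h | h
  · exact step2 T 1000 110000 11.6 69 (by norm_num) (by norm_num) h1 h (by norm_num) (by norm_num)
      (by norm_num)
  rcases le_total T 7300000 with h' | h'
  · exact step2 T 110000 7300000 33 116 (by norm_num) (by norm_num) h h' (by norm_num) (by norm_num)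
      (by norm_num)
  rcases le_total T 89000000 with h'' | h''
  · exact step2 T 7300000 89000000 62 158 (by norm_num) (by norm_num) h' h'' (by norm_num)
      (by norm_num) (by norm_num)
  rcases le_total T 295000000 with h3 | h3
  · exact step2 T 89000000 295000000 83 183 (by norm_num) (by norm_num) h'' h3 (by norm_num)
      (by norm_num) (by norm_num)
  · exact step2 T 295000000 (5 * 10 ^ 8) 94.5 195 (by norm_num) (by norm_num) h3 h2 (by norm_num)
      (by norm_num) (by norm_num)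

lemma range2 (T : ℝ) (h1 : 5 * 10 ^ 8 ≤ T) (h2 : T ≤ 10 ^ 13) :
    4 * (T / (2 * Real.pi)) ^ (1 / 4 : ℝ) + 1 ≤ Real.log T ^ (5 / 2 : ℝ) := by
  rcases le_total T 240000000000 with h | h
  · exact step3 T (5 * 10 ^ 8) 240000000000 443 4.47 200 (by norm_num) (by norm_num) h1 h (by norm_num)
      (by norm_num) (by norm_num) (by norm_num) (by norm_num)
  rcases le_total T 3600000000000 with h' | h'
  · exact step3 T 240000000000 3600000000000 871 5.118 262 (by norm_num)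
      (by rw [show (262 : ℕ) = 131 * 2 from rfl, pow_mul]; norm_num) h h'
      (by norm_num) (by norm_num) (by norm_num) (by norm_num) (by norm_num)
  rcases le_total T 9800000000000 with h'' | h''
  · exact step3 T 3600000000000 9800000000000 1118 5.375 289 (by norm_num)
      (by rw [show (289 : ℕ) = 17 * 17 from rfl, pow_mul]; norm_num) h' h''
      (by norm_num) (by norm_num) (by norm_num) (by norm_num) (by norm_num)
  · exact step3 T 9800000000000 (10 ^ 13) 1124 5.46 299 (by norm_num)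
      (by rw [show (299 : ℕ) = 13 * 23 from rfl, pow_mul]; norm_num) h'' h2
      (by norm_num) (by norm_num) (by norm_num) (by norm_num) (by norm_num)

theorem range_all : S_RANGE := by
  refine ⟨range1, fun T h1 h2 => ?_⟩
  rcases le_total T (5 * 10 ^ 8) with h | h
  · refine (range1 T h1 h).trans ?_
    have h3 : (1 : ℝ) ≤ Real.log T := by
      have := logLB 69 1000 T (by norm_num) (by norm_num) h1
      norm_num at this
      linarith
    rw [← Real.rpow_natCast (Real.log T) 2]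
    exact Real.rpow_le_rpow_of_exponent_le h3 (by norm_num)
  · exact range2 T h h2

end Pool.Agent.TH475.J4850
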